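import Mathlib
import Pool.Agent.TH184.HS.Bridge

/-!
# Hilbert-Schmidt Hankel operators on bounded Reinhardt domains (MP_dc9318_an, Q1)

Let `n ≥ 2`, let `Ω ⊆ ℂ^n` be a bounded Reinhardt domain (not assumed complete or pseudoconvex)
and let `f` be holomorphic on `Ω`. If the Hankel operator `H_{\bar f}` on the Bergman space
`A²(Ω)` is Hilbert-Schmidt, then `f` is constant and `H_{\bar f} = 0`.

Outline: for a Laurent coefficient `f_α ≠ 0` with `α ≠ 0`, testing against cut-off functions of
weight `γ - α` shows that on every line `γ + ℤα` of exponents of monomials in `A²(Ω)` the sum of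
`‖H_{\bar f} e_δ‖²` telescopes and is at least `|f_α|²` times the oscillation of `|z^α|²` on `Ω`;
for `n ≥ 2` there are infinitely many lines.
-/

set_option autoImplicit false

open MeasureTheory Set
open Pool.Agent.TH184.HS

namespace Pool.Agent.Results.MP_dc9318_an.NoHilbertSchmidt

/-- On a bounded Reinhardt domain in `ℂ^n`, `n ≥ 2`, the only Hilbert-Schmidt Hankel operator
`H_{\bar f}` with `f` holomorphic is zero (and then `f` is constant). -/
theorem result {n : ℕ} (hn : 2 ≤ n) {Ω : Set (Fin n → ℂ)} (hΩ : S.IsReinhardtDomain Ω)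
    (hb : Bornology.IsBounded Ω) {f : (Fin n → ℂ) → ℂ} (hf : S.Hol Ω f)
    (hHS : S.HankelHS Ω f) :
    (∃ c : ℂ, ∀ z ∈ Ω, f z = c) ∧ S.HankelZero Ω f := by
  have hHS' := hs_of hHS
  obtain ⟨T, hT, hTHS⟩ := hHS'.extension
  have hnt : Nontrivial (Fin n) := Fin.nontrivial_iff_two_le.2 hn
  have hne : Ωᶜ.Nonempty := by
    rw [nonempty_compl]
    intro h
    rw [h] at hb
    exact NormedSpace.unbounded_univ ℂ (Fin n → ℂ) hb
  have C : Ctx Ω f T := ⟨dom_of hΩ, hb, hne, hf, hHS'.dense, hT⟩
  obtain ⟨c, hc⟩ := C.constant hn hTHS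
  exact ⟨⟨c, hc⟩, zero_of fun u hu => hankel_eq_zero_of_const hΩ.isOpen.measurableSet hc u hu⟩

end Pool.Agent.Results.MP_dc9318_an.NoHilbertSchmidt
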